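import Pool.Agent.N931.PN.Stm5
import Pool.Agent.N116.EW.Far

/-!
Project PN (helper931), part FH: the rightmost point of the path.
-/

set_option autoImplicit false

namespace Pool.Agent.N951.PN.FH

open H974 H12S H389NS H984N H984P H342P Finset
open Pool.Agent.N931.PN Pool.Agent.N116.EW
open H342L (cdist Curve)

/-- Upper bound for a number of columns. -/
theorem cnt_le (p : ℤ → Prop) (m1 m2 : ℤ) (u : ℝ) (h : ∀ m ∈ Finset.Ioc m1 m2, p m → (m : ℝ) ≤ u) :
    ∑ m ∈ Finset.Ioc m1 m2, ind (p m) ≤ max 0 (min (m2 : ℝ) u - m1) := by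
  classical
  have h1 : ∑ m ∈ Finset.Ioc m1 m2, ind (p m) = (((Finset.Ioc m1 m2).filter p).card : ℝ) := by
    rw [Finset.card_filter]
    push_cast
    apply Finset.sum_congr rfl
    intro m _
    by_cases hm : p m
    · rw [ind_of hm, if_pos hm]
    · rw [ind_not_of hm, if_neg hm]
  have h2 : (Finset.Ioc m1 m2).filter p ⊆ Finset.Ioc m1 (min m2 ⌊u⌋) := by
    intro m hm
    rw [Finset.mem_filter] at hm
    have h3 := h m hm.1 hm.2
    rw [Finset.mem_Ioc] at hm ⊢
    exact ⟨hm.1.1, le_min hm.1.2 (Int.le_floor.2 h3)⟩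
  have h3 := Finset.card_le_card h2
  rw [Int.card_Ioc] at h3
  rw [h1]
  have h4 : (((Finset.Ioc m1 m2).filter p).card : ℝ) ≤ (((min m2 ⌊u⌋ - m1).toNat : ℕ) : ℝ) := by
    exact_mod_cast h3
  refine h4.trans ?_
  rcases le_total 0 (min m2 ⌊u⌋ - m1) with h5 | h5
  · have h6 : (((min m2 ⌊u⌋ - m1).toNat : ℕ) : ℝ) = ((min m2 ⌊u⌋ - m1 : ℤ) : ℝ) := by
      have := Int.toNat_of_nonneg h5
      exact_mod_cast congrArg (fun z : ℤ => (z : ℝ)) this
    rw [h6]
    refine le_trans ?_ (le_max_right _ _)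
    push_cast
    have h7 : min (m2 : ℝ) (⌊u⌋ : ℝ) ≤ min (m2 : ℝ) u := min_le_min le_rfl (Int.floor_le u)
    linarith
  · rw [Int.toNat_of_nonpos h5]
    simp

/-- Lower bound for a number of columns. -/
theorem le_cnt (p : ℤ → Prop) (m1 m2 : ℤ) (v : ℝ) (h : ∀ m ∈ Finset.Ioc m1 m2, (m : ℝ) ≤ v → p m) :
    min (m2 : ℝ) v - m1 - 1 ≤ ∑ m ∈ Finset.Ioc m1 m2, ind (p m) := by
  classical
  have h1 : ∑ m ∈ Finset.Ioc m1 m2, ind (p m) = (((Finset.Ioc m1 m2).filter p).card : ℝ) := by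
    rw [Finset.card_filter]
    push_cast
    apply Finset.sum_congr rfl
    intro m _
    by_cases hm : p m
    · rw [ind_of hm, if_pos hm]
    · rw [ind_not_of hm, if_neg hm]
  have h2 : Finset.Ioc m1 (min m2 ⌊v⌋) ⊆ (Finset.Ioc m1 m2).filter p := by
    intro m hm
    rw [Finset.mem_Ioc] at hm
    have hm2 := le_min_iff.1 hm.2
    rw [Finset.mem_filter]
    have h3 : m ∈ Finset.Ioc m1 m2 := Finset.mem_Ioc.2 ⟨hm.1, hm2.1⟩
    exact ⟨h3, h m h3 (Int.le_floor.1 hm2.2)⟩
  have h3 := Finset.card_le_card h2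
  rw [Int.card_Ioc] at h3
  rw [h1]
  have h4 : (((min m2 ⌊v⌋ - m1).toNat : ℕ) : ℝ) ≤ (((Finset.Ioc m1 m2).filter p).card : ℝ) := by
    exact_mod_cast h3
  refine le_trans ?_ h4
  have h5 : (min m2 ⌊v⌋ - m1 : ℤ) ≤ ((min m2 ⌊v⌋ - m1).toNat : ℤ) := Int.self_le_toNat _
  have h6 : ((min m2 ⌊v⌋ - m1 : ℤ) : ℝ) ≤ (((min m2 ⌊v⌋ - m1).toNat : ℕ) : ℝ) := by
    exact_mod_cast h5
  refine le_trans ?_ h6
  push_cast
  have h7 : min (m2 : ℝ) v ≤ min (m2 : ℝ) (⌊v⌋ : ℝ) + 1 := by
    rcases le_total (m2 : ℝ) (⌊v⌋ : ℝ) with h8 | h8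
    · rw [min_eq_left h8]
      linarith [min_le_left (m2 : ℝ) v]
    · rw [min_eq_right h8]
      linarith [min_le_right (m2 : ℝ) v, Int.lt_floor_add_one v]
  linarith

theorem clamp_sub {a b c d : ℝ} (h : a - b ≤ d) (hd : 0 ≤ d) :
    max 0 (min c a) - max 0 (min c b) ≤ d := by
  rcases le_total 0 (min c a) with h1 | h1
  · rw [max_eq_right h1]
    have h2 : min c a ≤ min c b + d := by
      rcases le_total c b with h3 | h3
      · rw [min_eq_left h3]
        linarith [min_le_left c a]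
      · rw [min_eq_right h3]
        linarith [min_le_right c a]
    linarith [le_max_right 0 (min c b)]
  · rw [max_eq_left h1]
    linarith [le_max_left 0 (min c b)]

theorem main : S_HIT → S_FH := by
  intro hHIT R x1 x2 hx1 hx12 hx2 hx3
  have hx1t : R.t < x1 := lt_of_le_of_lt (le_max_left _ _) hx1
  have hx10 : 0 < x1 := lt_of_le_of_lt (le_max_right _ _) hx1
  obtain ⟨κ, S, δ0, hκ, hS, hδ0, hδ01, hshape⟩ := R.shape
  refine ⟨fun γ => max 0 (min (x2 - x1) (fre γ - x1)), ⟨?_, ?_⟩, δ0, hδ0, ?_⟩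
  · intro γ γ'
    have h1 := fre_lip γ γ'
    have h2 := fre_lip γ' γ
    rw [dist_comm] at h2
    rw [abs_le]
    constructor
    · have h3 : max 0 (min (x2 - x1) (fre γ' - x1)) - max 0 (min (x2 - x1) (fre γ - x1)) ≤
          dist γ γ' := clamp_sub (by linarith) dist_nonneg
      show -dist γ γ' ≤ max 0 (min (x2 - x1) (fre γ - x1)) - max 0 (min (x2 - x1) (fre γ' - x1))
      linarith
    · exact clamp_sub (by linarith) dist_nonneg
  · intro γ
    show |max 0 (min (x2 - x1) (fre γ - x1))| ≤ 1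
    rw [abs_of_nonneg (le_max_left _ _)]
    apply max_le zero_le_one
    linarith [min_le_left (x2 - x1) (fre γ - x1)]
  · intro δ hδ hle F hF
    have hD := (hshape δ hδ hle).ok
    obtain ⟨X, hX⟩ : ∃ X : ℝ, X = fre ⟨R.curve δ F⟩ := ⟨_, rfl⟩
    obtain ⟨m1, hm1⟩ : ∃ m1 : ℤ, m1 = ⌊x1 / δ⌋ := ⟨_, rfl⟩
    obtain ⟨m2, hm2⟩ : ∃ m2 : ℤ, m2 = ⌊x2 / δ⌋ := ⟨_, rfl⟩
    have a1 : (m1 : ℝ) ≤ x1 / δ := by rw [hm1]; exact Int.floor_le _
    have a2 : x1 / δ < (m1 : ℝ) + 1 := by rw [hm1]; exact Int.lt_floor_add_one _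
    have b1 : (m2 : ℝ) ≤ x2 / δ := by rw [hm2]; exact Int.floor_le _
    have b2 : x2 / δ < (m2 : ℝ) + 1 := by rw [hm2]; exact Int.lt_floor_add_one _
    have a1' : δ * (m1 : ℝ) ≤ x1 := by
      rw [le_div_iff₀ hδ] at a1
      linarith
    have a2' : x1 < δ * (m1 : ℝ) + δ := by
      rw [div_lt_iff₀ hδ] at a2
      linarith
    have b1' : δ * (m2 : ℝ) ≤ x2 := by
      rw [le_div_iff₀ hδ] at b1
      linarith
    have b2' : x2 < δ * (m2 : ℝ) + δ := by
      rw [div_lt_iff₀ hδ] at b2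
      linarith
    have hdt : (R.dm δ).t = ⌊R.t / δ⌋ := rfl
    have hdr : (R.dm δ).r = ⌈R.B / δ⌉ - 1 := rfl
    -- the columns
    have hcol : ∀ m ∈ Finset.Ioc m1 m2, ((∃ k ≤ (R.dm δ).len F, m ≤ ((R.dm δ).walk F k).1.1) ↔
        KM (R.dm δ) m F) := by
      intro m hm
      rw [Finset.mem_Ioc] at hm
      have c1 : (m1 : ℝ) + 1 ≤ m := by exact_mod_cast hm.1
      have c2 : (m : ℝ) ≤ m2 := by exact_mod_cast hm.2
      apply hHIT _ hD m ?_ ?_ F hF
      · apply max_lt
        · rw [hdt]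
          have h1 : ((⌊R.t / δ⌋ : ℤ) : ℝ) < m := by
            have h2 := Int.floor_le (R.t / δ)
            have h3 : R.t / δ < x1 / δ := div_lt_div_of_pos_right hx1t hδ
            linarith
          exact_mod_cast h1
        · have h1 : (0 : ℝ) < m := by
            have h2 : 0 < x1 / δ := div_pos hx10 hδ
            linarith
          exact_mod_cast h1
      · rw [hdr]
        have h1 : (m : ℝ) < ((⌈R.B / δ⌉ : ℤ) : ℝ) := by
          have h2 := Int.le_ceil (R.B / δ)
          have h3 : x2 / δ < R.B / δ := div_lt_div_of_pos_right hx2 hδ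
          linarith
        have h2 : m < ⌈R.B / δ⌉ := by exact_mod_cast h1
        omega
    have hup := cnt_le (fun m => KM (R.dm δ) m F) m1 m2 (X / δ + 1 / 4) (by
      intro m hm hK
      have h1 := curve_reach R hδ hD hF ((hcol m hm).2 hK)
      rw [← hX] at h1
      have h2 : (m : ℝ) - 1 / 4 ≤ X / δ := by
        rw [le_div_iff₀ hδ]
        linarith
      linarith)
    have hlo := le_cnt (fun m => KM (R.dm δ) m F) m1 m2 (X / δ + 1 / 2) (by
      intro m hm hmX
      apply (hcol m hm).1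
      by_contra hcon
      have h1 := curve_not_reach R hδ hD hF hcon
      rw [← hX] at h1
      have h2 : X / δ ≤ (m : ℝ) - 3 / 4 := by
        rw [div_le_iff₀ hδ]
        linarith
      linarith)
    have hn : 0 ≤ ∑ m ∈ Finset.Ioc m1 m2, ind (KM (R.dm δ) m F) :=
      Finset.sum_nonneg fun m _ => ind_nonneg _
    show |max 0 (min (x2 - x1) (fre ⟨R.curve δ F⟩ - x1)) -
      hK (R.dm δ) δ ⌊x1 / δ⌋ ⌊x2 / δ⌋ F| ≤ 4 * δ
    unfold hK
    rw [← hX, ← hm1, ← hm2]
    obtain ⟨s, hs⟩ : ∃ s : ℝ, s = ∑ m ∈ Finset.Ioc m1 m2, ind (KM (R.dm δ) m F) := ⟨_, rfl⟩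
    rw [← hs]
    rw [← hs] at hn
    have hup' : s ≤ max 0 (min (m2 : ℝ) (X / δ + 1 / 4) - m1) := by rw [hs]; exact hup
    have hlo' : min (m2 : ℝ) (X / δ + 1 / 2) - m1 - 1 ≤ s := by rw [hs]; exact hlo
    have hXδ : δ * (X / δ) = X := by field_simp
    rw [abs_le]
    constructor
    · -- upper bound for the number
      rcases le_total (min (m2 : ℝ) (X / δ + 1 / 4) - m1) 0 with h1 | h1
      · rw [max_eq_left h1] at hup'
        have h2 : s = 0 := le_antisymm hup' hn
        rw [h2]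
        have := le_max_left 0 (min (x2 - x1) (X - x1))
        nlinarith
      · rw [max_eq_right h1] at hup'
        have h2 : δ * s ≤ δ * min (m2 : ℝ) (X / δ + 1 / 4) - δ * m1 := by
          have := mul_le_mul_of_nonneg_left hup' hδ.le
          linarith
        have h3 : δ * min (m2 : ℝ) (X / δ + 1 / 4) ≤ min x2 X + δ / 4 := by
          rcases le_total x2 X with h4 | h4
          · rw [min_eq_left h4]
            have := mul_le_mul_of_nonneg_left (min_le_left (m2 : ℝ) (X / δ + 1 / 4)) hδ.le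
            linarith
          · rw [min_eq_right h4]
            have := mul_le_mul_of_nonneg_left (min_le_right (m2 : ℝ) (X / δ + 1 / 4)) hδ.le
            rw [mul_add, hXδ] at this
            linarith
        have h4 : min x2 X - x1 = min (x2 - x1) (X - x1) := (min_sub_sub_right x2 X x1).symm
        have h5 := le_max_right 0 (min (x2 - x1) (X - x1))
        linarith
    · -- lower bound for the number
      have h0 : 0 ≤ δ * s := mul_nonneg hδ.le hn
      have h2 : δ * min (m2 : ℝ) (X / δ + 1 / 2) - δ * m1 - δ ≤ δ * s := by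
        have := mul_le_mul_of_nonneg_left hlo' hδ.le
        linarith
      have h3 : min x2 X - δ ≤ δ * min (m2 : ℝ) (X / δ + 1 / 2) := by
        rcases le_total (m2 : ℝ) (X / δ + 1 / 2) with h4 | h4
        · rw [min_eq_left h4]
          linarith [min_le_left x2 X]
        · rw [min_eq_right h4, mul_add, hXδ]
          linarith [min_le_right x2 X]
      have h4 : min x2 X - x1 = min (x2 - x1) (X - x1) := (min_sub_sub_right x2 X x1).symm
      rcases le_total 0 (min (x2 - x1) (X - x1)) with h5 | h5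
      · rw [max_eq_right h5]
        linarith
      · rw [max_eq_left h5]
        linarith

end Pool.Agent.N951.PN.FH
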